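import Mathlib

/-!
# Faithful circuit covers for weights divisible by an odd number

For odd `k`, no graph that contains a subdivision of the Petersen graph has property `P_k`: there is
an admissible eulerian weight with all values divisible by `k` (the values are `0`, `k` and `2 k`)
without a faithful circuit cover.  By the theorem of Alspach, Goddyn and Zhang the graphs without
such a subdivision have property `P_1`, hence all the properties `P_k`.
-/

set_option autoImplicit false

namespace Pool.Agent.N269.PK

open Finset

/-- A graph with vertex set `V` and edge set `E`: `ends e` is the unordered pair of the end-vertices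
of the edge `e`. Parallel edges (and loops) are allowed. -/
structure Multigraph (V E : Type) where
  ends : E → Sym2 V

namespace Multigraph

variable {V E : Type} [Fintype V] [DecidableEq V] [Fintype E] [DecidableEq E] (G : Multigraph V E)

/-- The degree of the vertex `v` in the subgraph with edge set `D`; a loop counts twice. -/
def deg (D : Finset E) (v : V) : ℕ :=
  (D.filter fun e => v ∈ G.ends e).card + (D.filter fun e => G.ends e = s(v, v)).card

/-- Any two edges of `D` are joined by a chain of edges of `D` in which consecutive edges share a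
vertex. -/
def Conn (D : Finset E) : Prop :=
  ∀ e ∈ D, ∀ f ∈ D,
    Relation.ReflTransGen (fun a b => b ∈ D ∧ ∃ v, v ∈ G.ends a ∧ v ∈ G.ends b) e f

/-- `C` is the edge set of a circuit: a connected 2-regular subgraph. -/
def IsCircuit (C : Finset E) : Prop :=
  C.Nonempty ∧ (∀ v, G.deg C v = 0 ∨ G.deg C v = 2) ∧ G.Conn C

/-- `D` is the edge set of a path from `x` to `y ≠ x`. -/
def IsPath (D : Finset E) (x y : V) : Prop :=
  x ≠ y ∧ G.deg D x = 1 ∧ G.deg D y = 1 ∧
    (∀ v, v ≠ x → v ≠ y → G.deg D v = 0 ∨ G.deg D v = 2) ∧ G.Conn D

/-- The edge cut `δ(X)`: the edges with exactly one end in `X`. -/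
def cut (X : Finset V) : Finset E :=
  univ.filter fun e => ∃ a ∈ X, ∃ b, b ∉ X ∧ G.ends e = s(a, b)

/-- The weight of every edge cut is even. -/
def Eulerian (w : E → ℕ) : Prop := ∀ X, Even (∑ e ∈ G.cut X, w e)

/-- No edge of an edge cut is heavier than all other edges of the cut together. -/
def Admissible (w : E → ℕ) : Prop :=
  ∀ X, ∀ e ∈ G.cut X, w e ≤ ∑ f ∈ (G.cut X).erase e, w f

/-- There is a family of circuits such that every edge `e` lies in exactly `w e` of them. -/
def FaithfulCover (w : E → ℕ) : Prop :=
  ∃ F : Multiset (Finset E), (∀ C ∈ F, G.IsCircuit C) ∧ ∀ e, F.countP (fun C => e ∈ C) = w e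

/-- Property `P_k`: every admissible eulerian weight with values divisible by `k` has a faithful
circuit cover. -/
def Property (k : ℕ) : Prop :=
  ∀ w : E → ℕ, (∀ e, k ∣ w e) → G.Eulerian w → G.Admissible w → G.FaithfulCover w

end Multigraph

/-! ### The Petersen graph -/

/-- The vertices of the Petersen graph: `(false, i)` on the outer pentagon, `(true, i)` on the
inner one. -/
abbrev PV := Bool × Fin 5

/-- The edges of the Petersen graph: `(0, i)` outer edges, `(1, i)` spokes, `(2, i)` inner edges. -/
abbrev PE := Fin 3 × Fin 5

/-- The first end of an edge of the Petersen graph. -/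
def pa (e : PE) : PV := if e.1 = 2 then (true, e.2) else (false, e.2)

/-- The second end: the edge `(0, i)` joins the outer vertices `i` and `i + 1`, the edge `(1, i)`
the outer and the inner vertex `i`, and the edge `(2, i)` the inner vertices `i` and `i + 2`. -/
def pb (e : PE) : PV :=
  if e.1 = 0 then (false, e.2 + 1) else if e.1 = 1 then (true, e.2) else (true, e.2 + 2)

/-- A subdivision of the Petersen graph contained in the graph `G`: distinct branch vertices `br c`
for the vertices `c` of the Petersen graph, and for every edge `i` of the Petersen graph a path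
`path i` of `G` between the branch vertices of its ends, such that different paths have no common
edge, and common vertices only in the branch vertices of common ends. -/
structure PetersenSubdivision {V E : Type} [Fintype V] [DecidableEq V] [Fintype E] [DecidableEq E]
    (G : Multigraph V E) where
  br : PV → V
  inj : Function.Injective br
  path : PE → Finset E
  isPath : ∀ i, G.IsPath (path i) (br (pa i)) (br (pb i))
  disj : ∀ i j, i ≠ j → Disjoint (path i) (path j)
  inner : ∀ i j, i ≠ j → ∀ v, G.deg (path i) v ≠ 0 → G.deg (path j) v ≠ 0 →
    ∃ c, v = br c ∧ (c = pa i ∨ c = pb i) ∧ (c = pa j ∨ c = pb j)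

/-- the weight of the Petersen graph: `2` on the spokes and `1` on the two pentagons -/
def pw (i : PE) : ℕ := if i.1 = 1 then 2 else 1

/-- the edge `i` is in the cut -/
def sep (f : PV → Bool) (i : PE) : ℕ := if f (pa i) = f (pb i) then 0 else 1

lemma pet_even' : ∀ o n : Fin 5 → Bool,
    (∑ i : Fin 5, (if o i = o (i + 1) then 0 else 1)) % 2 = 0 ∧
    (∑ i : Fin 5, (if n i = n (i + 2) then 0 else 1)) % 2 = 0 := by
  decide +kernel

/-- the other two edges at a vertex, and the spoke -/
def ex (c : PV) : PE := if c.1 then (2, c.2) else (0, c.2)
def ey (c : PV) : PE := if c.1 then (2, c.2 - 2) else (0, c.2 - 1)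
def es (c : PV) : PE := (1, c.2)

lemma inc_eq : ∀ (c : PV) (j : PE), (if c = pa j ∨ c = pb j then 1 else 0 : ℕ) =
    (if j = ex c then 1 else 0) + (if j = ey c then 1 else 0) + (if j = es c then 1 else 0) := by
  decide +kernel

lemma pet_adm : ∀ (o n : Fin 5 → Bool) (i : PE),
    (∑ j : PE, pw j * sep (fun c => if c.1 then n c.2 else o c.2) j) % 2 = 0 ∧
    (sep (fun c => if c.1 then n c.2 else o c.2) i = 1 →
      2 * pw i ≤ ∑ j : PE, pw j * sep (fun c => if c.1 then n c.2 else o c.2) j) := by
  decide +kernel

lemma pet_par : ∀ o n : Fin 5 → Bool,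
    (∀ i, (o i).toNat + (o (i - 1)).toNat = (n i).toNat + (n (i - 2)).toNat) →
    (∀ i, (o i).toNat + (o (i - 1)).toNat ≤ 1) → Even (∑ i, (o i).toNat) := by
  decide +kernel

end Pool.Agent.N269.PK
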