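import Pool.Agent.N269.PK.Main

set_option autoImplicit false
set_option linter.unusedSectionVars false

namespace Pool.Agent.N269.PK

open Finset

variable {V E : Type} [Fintype V] [DecidableEq V] [Fintype E] [DecidableEq E] {G : Multigraph V E}

variable (S : PetersenSubdivision G)

/-- two edges of one path at a vertex `v`: the vertex is not a branch vertex and the circuit which
contains one of them contains the other -/
lemma step {C : Finset E} (hC : G.IsCircuit C) (hsub : ∀ e ∈ C, ∃ j, e ∈ S.path j) (i : PE)
    {a b : E} (ha : a ∈ C) (hai : a ∈ S.path i) (hbi : b ∈ S.path i) {v : V}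
    (hva : v ∈ G.ends a) (hvb : v ∈ G.ends b) : b ∈ C := by
  by_cases hab : a = b
  · exact hab ▸ ha
  obtain ⟨hne, hx, hy, ho, -⟩ := S.isPath i
  -- the edges of the path at `v`
  set Fi := (S.path i).filter fun e => v ∈ G.ends e with hFi
  set Li := (S.path i).filter fun e => G.ends e = s(v, v) with hLi
  have hdeg : G.deg (S.path i) v = Fi.card + Li.card := rfl
  have hsubF : ({a, b} : Finset E) ⊆ Fi := by
    intro e he
    rw [Finset.mem_insert, Finset.mem_singleton] at he
    rcases he with rfl | rfl
    · exact Finset.mem_filter.2 ⟨hai, hva⟩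
    · exact Finset.mem_filter.2 ⟨hbi, hvb⟩
  have h2 : 2 ≤ Fi.card := by
    have := Finset.card_le_card hsubF
    rwa [Finset.card_pair hab] at this
  have hvx : v ≠ S.br (pa i) := by
    rintro rfl
    omega
  have hvy : v ≠ S.br (pb i) := by
    rintro rfl
    omega
  have hd2 : G.deg (S.path i) v = 2 := by
    rcases ho v hvx hvy with h | h
    · omega
    · exact h
  have hLi0 : Li = ∅ := by
    rw [← Finset.card_eq_zero]
    omega
  have hFab : Fi = {a, b} := by
    symm
    apply Finset.eq_of_subset_of_card_le hsubF
    rw [Finset.card_pair hab]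
    omega
  -- the edges of the circuit at `v` are edges of the path
  have hCi : ∀ g ∈ C, v ∈ G.ends g → g ∈ S.path i := by
    intro g hg hvg
    obtain ⟨j, hj⟩ := hsub g hg
    by_cases hij : i = j
    · rw [hij]; exact hj
    · obtain ⟨c, hc, hc1, -⟩ := S.inner i j hij v (deg_pos hai hva) (deg_pos hj hvg)
      rcases hc1 with rfl | rfl
      · exact absurd hc hvx
      · exact absurd hc hvy
  have hCF : (C.filter fun e => v ∈ G.ends e) ⊆ {a, b} := by
    intro g hg
    rw [Finset.mem_filter] at hg
    rw [← hFab]
    exact Finset.mem_filter.2 ⟨hCi g hg.1 hg.2, hg.2⟩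
  have hCL : (C.filter fun e => G.ends e = s(v, v)) = ∅ := by
    rw [Finset.filter_eq_empty_iff]
    intro g hg hgv
    have h3 : v ∈ G.ends g := by rw [hgv]; simp
    have h4 : g ∈ Li := Finset.mem_filter.2 ⟨hCi g hg h3, hgv⟩
    rw [hLi0] at h4
    simp at h4
  have hCdeg : G.deg C v = 2 := by
    rcases hC.2.1 v with h | h
    · exact absurd h (deg_pos ha hva)
    · exact h
  by_contra hb
  have h5 : (C.filter fun e => v ∈ G.ends e) ⊆ {a} := by
    intro g hg
    have h6 := hCF hg
    rw [Finset.mem_insert, Finset.mem_singleton] at h6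
    rcases h6 with rfl | rfl
    · exact Finset.mem_singleton_self _
    · exact absurd (Finset.mem_filter.1 hg).1 hb
  have h7 := Finset.card_le_card h5
  rw [Finset.card_singleton] at h7
  have h8 : G.deg C v = (C.filter fun e => v ∈ G.ends e).card +
      (C.filter fun e => G.ends e = s(v, v)).card := rfl
  rw [hCL, Finset.card_empty] at h8
  omega

lemma all_or_nothing {C : Finset E} (hC : G.IsCircuit C) (hsub : ∀ e ∈ C, ∃ j, e ∈ S.path j)
    (i : PE) {e : E} (he : e ∈ C) (hei : e ∈ S.path i) : S.path i ⊆ C := by
  intro f hf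
  have hchain := (S.isPath i).2.2.2.2 e hei f hf
  have : f ∈ C ∧ f ∈ S.path i := by
    clear hf
    induction hchain with
    | refl => exact ⟨he, hei⟩
    | tail _ hstep ih =>
      obtain ⟨h1, h2⟩ := ih
      obtain ⟨h3, v, hva, hvb⟩ := hstep
      exact ⟨step S hC hsub i h1 h2 h3 hva hvb, h3⟩
  exact this.1

lemma path_nonempty (i : PE) : ∃ e, e ∈ S.path i := by
  obtain ⟨hne, hx, -⟩ := S.isPath i
  by_contra hcon
  push Not at hcon
  have : S.path i = ∅ := Finset.eq_empty_of_forall_notMem hcon
  rw [this] at hx
  simp [Multigraph.deg] at hx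

/-- an edge of the path -/
noncomputable def rep (i : PE) : E := (path_nonempty S i).choose

lemma rep_mem (i : PE) : rep S i ∈ S.path i := (path_nonempty S i).choose_spec

/-- every branch vertex is an end of an edge different from `i` -/
lemma other : ∀ (c : PV) (i : PE), ∃ j, j ≠ i ∧ (c = pa j ∨ c = pb j) := by decide +kernel

lemma deg_branch (c : PV) (i : PE) :
    G.deg (S.path i) (S.br c) = if c = pa i ∨ c = pb i then 1 else 0 := by
  obtain ⟨hne, hx, hy, ho, -⟩ := S.isPath i
  split_ifs with h
  · rcases h with rfl | rfl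
    · exact hx
    · exact hy
  · by_contra h0
    obtain ⟨j, hji, hj⟩ := other c i
    have hj1 : G.deg (S.path j) (S.br c) ≠ 0 := by
      obtain ⟨-, hx', hy', -⟩ := S.isPath j
      rcases hj with rfl | rfl
      · omega
      · omega
    obtain ⟨c', hc', hc1, -⟩ := S.inner i j (Ne.symm hji) _ h0 hj1
    exact h (S.inj hc' ▸ hc1)

lemma deg_split {C : Finset E} (hsub : ∀ e ∈ C, ∃ j, e ∈ S.path j) (v : V) :
    G.deg C v = ∑ j : PE, G.deg (C ∩ S.path j) v := by
  have hC : C = univ.biUnion fun j : PE => C ∩ S.path j := by
    ext e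
    rw [Finset.mem_biUnion]
    constructor
    · intro he
      obtain ⟨j, hj⟩ := hsub e he
      exact ⟨j, Finset.mem_univ j, Finset.mem_inter.2 ⟨he, hj⟩⟩
    · rintro ⟨j, -, hj⟩
      exact (Finset.mem_inter.1 hj).1
  conv_lhs => rw [hC]
  rw [deg_eq_sum, Finset.sum_biUnion]
  · exact Finset.sum_congr rfl fun j _ => (deg_eq_sum G _ v).symm
  · intro i _ j _ hij
    exact (S.disj i j hij).mono Finset.inter_subset_right Finset.inter_subset_right

/-- `1` if the circuit contains the path `i` -/
noncomputable def d (C : Finset E) (i : PE) : ℕ := if rep S i ∈ C then 1 else 0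

lemma deg_circuit {C : Finset E} (hC : G.IsCircuit C) (hsub : ∀ e ∈ C, ∃ j, e ∈ S.path j)
    (c : PV) : G.deg C (S.br c) = d S C (ex c) + d S C (ey c) + d S C (es c) := by
  rw [deg_split S hsub]
  have h1 : ∀ j : PE, G.deg (C ∩ S.path j) (S.br c) =
      d S C j * ((if j = ex c then 1 else 0) + (if j = ey c then 1 else 0) +
        (if j = es c then 1 else 0)) := by
    intro j
    rw [← inc_eq c j, ← deg_branch S c j]
    unfold d
    split_ifs with h
    · rw [Finset.inter_eq_right.2 (all_or_nothing S hC hsub j h (rep_mem S j)), one_mul]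
    · have : C ∩ S.path j = ∅ := by
        rw [← Finset.disjoint_iff_inter_eq_empty, Finset.disjoint_left]
        intro e he hej
        exact h (all_or_nothing S hC hsub j he hej (rep_mem S j))
      rw [this, zero_mul]
      simp [Multigraph.deg]
  rw [Finset.sum_congr rfl fun j _ => h1 j]
  simp only [mul_add, mul_ite, mul_one, mul_zero, Finset.sum_add_distrib, Finset.sum_ite_eq',
    Finset.mem_univ, if_true]

lemma d_le (C : Finset E) (i : PE) : d S C i ≤ 1 := by
  unfold d; split_ifs <;> omega

lemma countP_sum {α : Type} (q : α → Prop) [DecidablePred q] (F : Multiset α) :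
    F.countP q = (F.map fun C => if q C then 1 else 0).sum := by
  induction F using Multiset.induction_on with
  | empty => simp
  | cons a F ih =>
    rw [Multiset.countP_cons, Multiset.map_cons, Multiset.sum_cons, ih, add_comm]

lemma eq_of_sum_le {α : Type} (g h : α → ℕ) (F : Multiset α) (hle : ∀ C ∈ F, g C ≤ h C)
    (hs : (F.map h).sum ≤ (F.map g).sum) : ∀ C ∈ F, g C = h C := by
  induction F using Multiset.induction_on with
  | empty => simp
  | cons a F ih =>
    rw [Multiset.map_cons, Multiset.map_cons, Multiset.sum_cons, Multiset.sum_cons] at hs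
    have h1 := hle a (Multiset.mem_cons_self a F)
    have h2 : ∀ C ∈ F, g C ≤ h C := fun C hC => hle C (Multiset.mem_cons_of_mem hC)
    have h3 : (F.map g).sum ≤ (F.map h).sum := Multiset.sum_map_le_sum_map _ _ h2
    intro C hC
    rcases Multiset.mem_cons.1 hC with rfl | hC
    · omega
    · exact ih h2 (by omega) C hC

lemma even_sum {α : Type} (g : α → ℕ) (F : Multiset α) (h : ∀ C ∈ F, Even (g C)) :
    Even (F.map g).sum := by
  induction F using Multiset.induction_on with
  | empty => simp
  | cons a F ih =>
    rw [Multiset.map_cons, Multiset.sum_cons]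
    exact (h a (Multiset.mem_cons_self a F)).add
      (ih fun C hC => h C (Multiset.mem_cons_of_mem hC))

lemma map_sum_comm {α : Type} (g : α → Fin 5 → ℕ) (F : Multiset α) :
    (F.map fun C => ∑ i, g C i).sum = ∑ i, (F.map fun C => g C i).sum := by
  induction F using Multiset.induction_on with
  | empty => simp
  | cons a F ih =>
    rw [Multiset.map_cons, Multiset.sum_cons, ih, ← Finset.sum_add_distrib]
    refine Finset.sum_congr rfl fun i _ => ?_
    rw [Multiset.map_cons, Multiset.sum_cons]

lemma no_cover {k : ℕ} (hk : Odd k) : ¬ G.FaithfulCover (wt S k) := by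
  rintro ⟨F, hF, hcov⟩
  have hsub : ∀ C ∈ F, ∀ e ∈ C, ∃ j, e ∈ S.path j := by
    intro C hC e he
    by_contra hcon
    push Not at hcon
    have h1 := hcov e
    rw [wt_of_not S k hcon, Multiset.countP_eq_zero] at h1
    exact h1 C hC he
  have hsum : ∀ i : PE, (F.map fun C => d S C i).sum = k * pw i := by
    intro i
    have h1 := hcov (rep S i)
    rw [wt_of_mem S k (rep_mem S i), countP_sum] at h1
    rw [← h1]
    rfl
  have hdeg : ∀ C ∈ F, ∀ c, d S C (ex c) + d S C (ey c) + d S C (es c) = 0 ∨
      d S C (ex c) + d S C (ey c) + d S C (es c) = 2 := by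
    intro C hC c
    rw [← deg_circuit S (hF C hC) (hsub C hC) c]
    exact (hF C hC).2.1 _
  have hpw : ∀ c : PV, pw (ex c) = 1 ∧ pw (ey c) = 1 ∧ pw (es c) = 2 := by decide
  have heq : ∀ c, ∀ C ∈ F, d S C (es c) = d S C (ex c) + d S C (ey c) := by
    intro c
    apply eq_of_sum_le (fun C => d S C (es c)) (fun C => d S C (ex c) + d S C (ey c)) F
    · intro C hC
      have h1 := hdeg C hC c
      have h2 := d_le S C (es c)
      have h3 := d_le S C (ex c)
      have h4 := d_le S C (ey c)
      omega
    · rw [Multiset.sum_map_add, hsum, hsum, hsum, (hpw c).1, (hpw c).2.1, (hpw c).2.2]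
      omega
  have heven : ∀ C ∈ F, Even (∑ i : Fin 5, d S C (0, i)) := by
    intro C hC
    have h1 : ∀ i : PE, (decide (rep S i ∈ C)).toNat = d S C i := by
      intro i
      unfold d
      by_cases h : rep S i ∈ C <;> simp [h]
    have h2 := pet_par (fun i => decide (rep S (0, i) ∈ C)) (fun i => decide (rep S (2, i) ∈ C))
      (by
        intro i
        simp only [h1]
        have e1 := heq (false, i) C hC
        have e2 := heq (true, i) C hC
        have e3 : es (false, i) = es (true, i) := rfl
        have e4 : ex (false, i) = (0, i) := rfl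
        have e5 : ey (false, i) = (0, i - 1) := rfl
        have e6 : ex (true, i) = (2, i) := rfl
        have e7 : ey (true, i) = (2, i - 2) := rfl
        rw [e4, e5] at e1
        rw [e6, e7, ← e3] at e2
        omega)
      (by
        intro i
        simp only [h1]
        have e1 := heq (false, i) C hC
        have e4 : ex (false, i) = (0, i) := rfl
        have e5 : ey (false, i) = (0, i - 1) := rfl
        rw [e4, e5] at e1
        have := d_le S C (es (false, i))
        omega)
    simpa only [h1] using h2
  have htot : (F.map fun C => ∑ i : Fin 5, d S C (0, i)).sum = 5 * k := by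
    rw [map_sum_comm]
    have h1 : ∀ i : Fin 5, (F.map fun C => d S C (0, i)).sum = k := by
      intro i
      rw [hsum]
      have : pw (0, i) = 1 := rfl
      rw [this, mul_one]
    rw [Finset.sum_congr rfl fun i _ => h1 i]
    simp
  have h5 := even_sum _ F heven
  rw [htot] at h5
  obtain ⟨m, hm⟩ := hk
  rw [Nat.even_iff] at h5
  omega

end Pool.Agent.N269.PK
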