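import Pool.Agent.N269.PK.Base

set_option autoImplicit false
set_option linter.unusedSectionVars false

namespace Pool.Agent.N269.PK

open Finset

variable {V E : Type} [Fintype V] [DecidableEq V] [Fintype E] [DecidableEq E] {G : Multigraph V E}

/-! ### Degrees and cuts -/

lemma deg_eq_sum (G : Multigraph V E) (D : Finset E) (v : V) :
    G.deg D v = ∑ e ∈ D, ((if v ∈ G.ends e then 1 else 0) + if G.ends e = s(v, v) then 1 else 0) := by
  unfold Multigraph.deg
  rw [Finset.card_filter, Finset.card_filter, ← Finset.sum_add_distrib]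

lemma deg_pos {D : Finset E} {v : V} {e : E} (he : e ∈ D) (hv : v ∈ G.ends e) :
    G.deg D v ≠ 0 := by
  unfold Multigraph.deg
  have : 0 < (D.filter fun e => v ∈ G.ends e).card :=
    Finset.card_pos.2 ⟨e, Finset.mem_filter.2 ⟨he, hv⟩⟩
  omega

lemma edge_sum (G : Multigraph V E) (X : Finset V) (e : E) :
    ((∑ v ∈ X, (((if v ∈ G.ends e then 1 else 0) + if G.ends e = s(v, v) then 1 else 0 : ℕ)) : ℕ) :
      ZMod 2) = if e ∈ G.cut X then 1 else 0 := by
  obtain ⟨x, y, hxy⟩ : ∃ x y, G.ends e = s(x, y) := by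
    induction h : G.ends e with
    | _ x y => exact ⟨x, y, rfl⟩
  have hcut : e ∈ G.cut X ↔ (x ∈ X ∧ y ∉ X) ∨ (y ∈ X ∧ x ∉ X) := by
    unfold Multigraph.cut
    simp only [Finset.mem_filter, Finset.mem_univ, true_and, hxy]
    constructor
    · rintro ⟨a, ha, b, hb, h⟩
      rw [Sym2.eq_iff] at h
      rcases h with ⟨rfl, rfl⟩ | ⟨rfl, rfl⟩
      · exact Or.inl ⟨ha, hb⟩
      · exact Or.inr ⟨ha, hb⟩
    · rintro (⟨h1, h2⟩ | ⟨h1, h2⟩)
      · exact ⟨x, h1, y, h2, rfl⟩
      · exact ⟨y, h1, x, h2, Sym2.eq_swap⟩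
  rw [hxy]
  by_cases hxy' : x = y
  · subst hxy'
    have hn : e ∉ G.cut X := by rw [hcut]; tauto
    rw [if_neg hn]
    have h1 : ∀ v ∈ X, ((if v ∈ s(x, x) then 1 else 0) + if s(x, x) = s(v, v) then 1 else 0 : ℕ) =
        if v = x then 2 else 0 := by
      intro v _
      by_cases hv : v = x
      · subst hv; simp
      · have : ¬ (x = v) := fun h => hv h.symm
        simp [hv, this]
    rw [Finset.sum_congr rfl h1, Finset.sum_ite_eq']
    split_ifs
    · decide
    · decide
  · have h1 : ∀ v ∈ X, ((if v ∈ s(x, y) then 1 else 0) + if s(x, y) = s(v, v) then 1 else 0 : ℕ) =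
        (if v = x then 1 else 0) + (if v = y then 1 else 0) := by
      intro v _
      have h2 : ¬ (s(x, y) = s(v, v)) := by
        rw [Sym2.eq_iff]
        rintro (⟨h3, h4⟩ | ⟨h3, h4⟩) <;> exact hxy' (h3.trans h4.symm)
      rw [if_neg h2, add_zero]
      by_cases hv : v = x
      · subst hv
        simp [hxy']
      · by_cases hv' : v = y
        · subst hv'
          simp [hv]
        · simp [hv, hv']
    rw [Finset.sum_congr rfl h1, Finset.sum_add_distrib, Finset.sum_ite_eq', Finset.sum_ite_eq']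
    by_cases hx : x ∈ X <;> by_cases hy : y ∈ X
    · have hn : e ∉ G.cut X := by rw [hcut]; tauto
      rw [if_neg hn, if_pos hx, if_pos hy]; decide
    · have hn : e ∈ G.cut X := by rw [hcut]; tauto
      rw [if_pos hn, if_pos hx, if_neg hy]; decide
    · have hn : e ∈ G.cut X := by rw [hcut]; tauto
      rw [if_pos hn, if_neg hx, if_pos hy]; decide
    · have hn : e ∉ G.cut X := by rw [hcut]; tauto
      rw [if_neg hn, if_neg hx, if_neg hy]; decide

lemma cut_card (G : Multigraph V E) (D : Finset E) (X : Finset V) :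
    ((D ∩ G.cut X).card : ZMod 2) = ∑ v ∈ X, (G.deg D v : ZMod 2) := by
  rw [← Nat.cast_sum]
  simp only [deg_eq_sum]
  rw [Finset.sum_comm, Nat.cast_sum, Finset.sum_congr rfl (fun e _ => edge_sum G X e),
    ← Finset.sum_filter, Finset.sum_const, nsmul_eq_mul, mul_one, Finset.filter_mem_eq_inter]

lemma path_cut {D : Finset E} {x y : V} (h : G.IsPath D x y) (X : Finset V) :
    ((D ∩ G.cut X).card : ZMod 2) = (if x ∈ X then 1 else 0) + (if y ∈ X then 1 else 0) := by
  obtain ⟨hxy, hx, hy, ho, -⟩ := h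
  rw [cut_card]
  have h1 : ∀ v ∈ X, (G.deg D v : ZMod 2) = (if v = x then 1 else 0) + (if v = y then 1 else 0) := by
    intro v _
    by_cases hv : v = x
    · subst hv
      rw [hx, if_pos rfl, if_neg hxy]; norm_num
    · by_cases hv' : v = y
      · subst hv'
        rw [hy, if_pos rfl, if_neg hv]; norm_num
      · rw [if_neg hv, if_neg hv']
        rcases ho v hv hv' with h | h
        · rw [h]; norm_num
        · rw [h]; decide
  rw [Finset.sum_congr rfl h1, Finset.sum_add_distrib, Finset.sum_ite_eq', Finset.sum_ite_eq']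

/-! ### The weight -/

variable (S : PetersenSubdivision G)

/-- the trace of a vertex set on the Petersen graph -/
def tr (S : PetersenSubdivision G) (X : Finset V) (c : PV) : Bool := decide (S.br c ∈ X)

lemma sep_mod (X : Finset V) (i : PE) :
    (S.path i ∩ G.cut X).card % 2 = sep (tr S X) i := by
  have h := path_cut (S.isPath i) X
  have h2 : ((S.path i ∩ G.cut X).card : ZMod 2) = ((sep (tr S X) i : ℕ) : ZMod 2) := by
    rw [h]
    unfold sep tr
    by_cases h1 : S.br (pa i) ∈ X <;> by_cases h2 : S.br (pb i) ∈ X <;> simp [h1, h2]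
    decide
  rw [ZMod.natCast_eq_natCast_iff'] at h2
  rw [h2]
  unfold sep
  split_ifs <;> rfl

lemma tr_eq (X : Finset V) : ∃ o n : Fin 5 → Bool,
    tr S X = fun c : PV => if c.1 then n c.2 else o c.2 := by
  refine ⟨fun i => tr S X (false, i), fun i => tr S X (true, i), ?_⟩
  funext c
  rcases c with ⟨b, i⟩
  cases b <;> simp

lemma adm' (X : Finset V) (i : PE) :
    (∑ j : PE, pw j * sep (tr S X) j) % 2 = 0 ∧
    (sep (tr S X) i = 1 → 2 * pw i ≤ ∑ j : PE, pw j * sep (tr S X) j) := by
  obtain ⟨o, n, h⟩ := tr_eq S X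
  rw [h]
  exact pet_adm o n i

/-- the weight: `k` on the paths of the pentagons, `2 k` on the paths of the spokes, `0` on the
other edges -/
def wt (S : PetersenSubdivision G) (k : ℕ) (e : E) : ℕ :=
  ∑ i : PE, if e ∈ S.path i then k * pw i else 0

lemma wt_of_mem (k : ℕ) {i : PE} {e : E} (he : e ∈ S.path i) : wt S k e = k * pw i := by
  unfold wt
  rw [Finset.sum_eq_single i]
  · rw [if_pos he]
  · intro j _ hj
    rw [if_neg]
    intro hej
    exact (Finset.disjoint_left.1 (S.disj j i hj)) hej he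
  · intro h
    exact absurd (Finset.mem_univ i) h

lemma wt_of_not (k : ℕ) {e : E} (he : ∀ i, e ∉ S.path i) : wt S k e = 0 := by
  unfold wt
  exact Finset.sum_eq_zero fun i _ => if_neg (he i)

lemma wt_sum (k : ℕ) (X : Finset V) :
    ∑ e ∈ G.cut X, wt S k e = k * ∑ i : PE, pw i * (S.path i ∩ G.cut X).card := by
  unfold wt
  rw [Finset.sum_comm, Finset.mul_sum]
  refine Finset.sum_congr rfl fun i _ => ?_
  rw [← Finset.sum_filter, Finset.sum_const, smul_eq_mul, Finset.filter_mem_eq_inter,
    Finset.inter_comm]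
  ring

lemma wt_dvd (k : ℕ) (e : E) : k ∣ wt S k e := by
  unfold wt
  refine Finset.dvd_sum fun i _ => ?_
  split_ifs
  · exact Dvd.intro _ rfl
  · exact dvd_zero k

lemma wt_eulerian (k : ℕ) : G.Eulerian (wt S k) := by
  intro X
  rw [wt_sum]
  apply Even.mul_left
  rw [Nat.even_iff]
  have h := (adm' S X (0, 0)).1
  have h2 : ((∑ i : PE, pw i * (S.path i ∩ G.cut X).card : ℕ) : ZMod 2) =
      ((∑ i : PE, pw i * sep (tr S X) i : ℕ) : ZMod 2) := by
    push_cast
    refine Finset.sum_congr rfl fun i _ => ?_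
    congr 1
    rw [← sep_mod]
    exact (ZMod.natCast_mod _ 2).symm
  rw [ZMod.natCast_eq_natCast_iff'] at h2
  rw [h2, h]

lemma wt_admissible (k : ℕ) : G.Admissible (wt S k) := by
  intro X e he
  have h1 := Finset.add_sum_erase (G.cut X) (wt S k) he
  have h2 : 2 * wt S k e ≤ ∑ f ∈ G.cut X, wt S k f := by
    by_cases hex : ∃ i, e ∈ S.path i
    · obtain ⟨i, hi⟩ := hex
      rw [wt_of_mem S k hi, wt_sum]
      have hle : 2 * pw i ≤ ∑ j : PE, pw j * (S.path j ∩ G.cut X).card := by
        have hpos : 1 ≤ (S.path i ∩ G.cut X).card :=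
          Finset.card_pos.2 ⟨e, Finset.mem_inter.2 ⟨hi, he⟩⟩
        have hmod := sep_mod S X i
        rcases Nat.lt_or_ge (S.path i ∩ G.cut X).card 2 with h3 | h3
        · have h4 : (S.path i ∩ G.cut X).card = 1 := by omega
          rw [h4] at hmod
          refine ((adm' S X i).2 (by omega)).trans ?_
          refine Finset.sum_le_sum fun j _ => Nat.mul_le_mul_left _ ?_
          rw [← sep_mod]
          exact Nat.mod_le _ _
        · calc 2 * pw i ≤ pw i * (S.path i ∩ G.cut X).card := by nlinarith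
            _ ≤ _ := Finset.single_le_sum (f := fun j => pw j * (S.path j ∩ G.cut X).card)
                (fun _ _ => Nat.zero_le _) (Finset.mem_univ i)
      calc 2 * (k * pw i) = k * (2 * pw i) := by ring
        _ ≤ _ := Nat.mul_le_mul_left _ hle
    · push Not at hex
      rw [wt_of_not S k hex]
      omega
  omega

end Pool.Agent.N269.PK
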